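import Pool.Agent.H96.AL.Targets4

/-!
# AL, module G1: strict contractions
-/

open Topology Set Filter Real

namespace Pool.Agent.H12.AL

open Pool.Agent.H96.AL

theorem continuous_of_Lip {X : Type} [MetricSpace X] {L : ℝ} {g : X → ℝ} (h : Lip L g) :
    Continuous g := by
  refine LipschitzWith.continuous (K := Real.toNNReal L) (LipschitzWith.of_dist_le_mul ?_)
  intro x y
  rw [Real.dist_eq]
  refine (h x y).trans (mul_le_mul_of_nonneg_right ?_ dist_nonneg)
  exact Real.le_coe_toNNReal L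

theorem g1 (hCF : T_CF) (hCT : T_CT) (hFL : T_FL) (hSF : T_SF) : T_G1 := by
  intro X _ D hSp hdim m E hE x U' hU' hxU'
  obtain ⟨F, c, ρ, hc, hρ, hLip, hSC, hGood, hFx, hFc⟩ := hCF X D hSp hdim x
  have hcosh : 0 ≤ cosh D := (cosh_pos D).le
  obtain ⟨ρ', hρ', hρρ, hfl⟩ := hCT X F x (cosh D) c ρ hcosh hc hρ hSC (continuous_of_Lip hLip)
    hFx hFc
  have hD : 1 ≤ D := hSp.one_le
  obtain ⟨r₀, hr₀, hball⟩ := Metric.isOpen_iff.1 hU' x hxU'
  obtain ⟨r, hr, hr1, hr2⟩ : ∃ r : ℝ, 0 < r ∧ r ≤ ρ' ∧ 2 * r ≤ r₀ :=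
    ⟨min ρ' (r₀ / 2), lt_min hρ' (half_pos hr₀), min_le_left _ _, by
      have := min_le_right ρ' (r₀ / 2)
      linarith⟩
  refine ⟨Metric.ball x r, Metric.isOpen_ball, Metric.mem_ball_self hr, ?_, ?_⟩
  · exact (Metric.ball_subset_ball (by linarith)).trans hball
  intro O hO hxO
  obtain ⟨r', hr', hball'⟩ := Metric.isOpen_iff.1 hO x hxO
  obtain ⟨r₁, hr₁, hr₁r, hr₁r'⟩ : ∃ r₁ : ℝ, 0 < r₁ ∧ r₁ ≤ r ∧ r₁ ≤ r' :=
    ⟨min r r', lt_min hr hr', min_le_left _ _, min_le_right _ _⟩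
  obtain ⟨T, hT⟩ : ∃ T : ℝ, T = 4 * ρ' / c := ⟨_, rfl⟩
  have hT0 : 0 < T := by rw [hT]; positivity
  obtain ⟨K, hK⟩ : ∃ K : ℝ, K = exp (2 * cosh D * T) * (2 * (1 + D) * m * T) := ⟨_, rfl⟩
  have hK0 : 0 ≤ K := by rw [hK]; positivity
  obtain ⟨e, he0, he1, heK⟩ : ∃ e : ℝ, 0 < e ∧ e ≤ 1 ∧ K * e < r₁ ^ 2 := by
    refine ⟨min 1 (r₁ ^ 2 / (K + 1)), lt_min one_pos (by positivity), min_le_left _ _, ?_⟩
    calc K * min 1 (r₁ ^ 2 / (K + 1)) ≤ K * (r₁ ^ 2 / (K + 1)) :=
          mul_le_mul_of_nonneg_left (min_le_right _ _) hK0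
      _ = r₁ ^ 2 * (K / (K + 1)) := by ring
      _ < r₁ ^ 2 * 1 := by
          apply mul_lt_mul_of_pos_left _ (by positivity)
          rw [div_lt_one (by linarith)]
          linarith
      _ = r₁ ^ 2 := mul_one _
  obtain ⟨H, hH0, hHc, hHE, hHd⟩ := hSF X D hSp F D (cosh D) (cosh D ^ 2) (by linarith) hcosh
    (by positivity) hLip hSC hGood m E hE (Metric.ball x r) (fun _ => e) continuousOn_const
    (fun _ _ => ⟨he0, he1⟩)
  have hmain : ∀ w ∈ Metric.ball x r, ∀ s : ℝ, 0 ≤ s → s ≤ T →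
      dist x (H w s) < r + r₁ ∧ (s = T → dist x (H w s) < r₁) := by
    intro w hw s hs hsT
    obtain ⟨β, hβ0, hβ⟩ := hFL X D hSp F D (cosh D) (by linarith) hcosh hLip hSC w
    have hw' : dist x (β 0) < r := by
      rw [hβ0, dist_comm]
      exact hw
    obtain ⟨h1, h2⟩ := hfl D β hβ (by linarith) s hs
    have h3 := hHd w hw β hβ hβ0 s hs
    have h4 : exp (2 * cosh D * s) * (2 * (1 + D) * m * e * s) ≤ K * e := by
      rw [hK]
      calc exp (2 * cosh D * s) * (2 * (1 + D) * m * e * s) ≤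
          exp (2 * cosh D * T) * (2 * (1 + D) * m * e * T) := by
            apply mul_le_mul
            · rw [exp_le_exp]
              exact mul_le_mul_of_nonneg_left hsT (by positivity)
            · exact mul_le_mul_of_nonneg_left hsT (by positivity)
            · positivity
            · positivity
        _ = _ := by ring
    have h5 : dist (H w s) (β s) < r₁ := by
      have h6 : dist (H w s) (β s) ^ 2 < r₁ ^ 2 := (h3.trans h4).trans_lt heK
      exact lt_of_pow_lt_pow_left₀ 2 hr₁.le h6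
    constructor
    · have h7 := dist_triangle x (β s) (H w s)
      rw [dist_comm (β s)] at h7
      linarith
    · intro hsT'
      have h8 : β s = x := h2 (by rw [hsT', hT])
      rw [h8, dist_comm] at h5
      exact h5
  refine ⟨fun w t => H w (t * T), ?_, ?_, ?_⟩
  · refine hHc.comp (f := fun p : X × ℝ => (p.1, p.2 * T)) ?_ ?_
    · exact (continuous_fst.prodMk (continuous_snd.mul continuous_const)).continuousOn
    · rintro ⟨w, t⟩ ⟨hw, ht⟩
      exact ⟨hw, mul_nonneg ht.1 hT0.le⟩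
  · intro w hw
    refine ⟨?_, ?_⟩
    · show H w (0 * T) = w
      rw [zero_mul]
      exact hH0 w hw
    · show H w (1 * T) ∈ O
      rw [one_mul]
      apply hball'
      rw [Metric.mem_ball, dist_comm]
      exact ((hmain w hw T hT0.le le_rfl).2 rfl).trans_le hr₁r'
  · intro w hw t ht
    have h0 : 0 ≤ t * T := mul_nonneg ht.1 hT0.le
    have h1 : t * T ≤ T := by
      calc t * T ≤ 1 * T := mul_le_mul_of_nonneg_right ht.2 hT0.le
        _ = T := one_mul T
    refine ⟨?_, fun i => hHE w hw (t * T) h0 i⟩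
    apply hball
    rw [Metric.mem_ball, dist_comm]
    have := (hmain w hw (t * T) h0 h1).1
    show dist x (H w (t * T)) < r₀
    linarith

end Pool.Agent.H12.AL
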