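import Pool.Agent.H96.AL.Targets1

/-!
# AL, module HH: comparison in terms of `cc`
-/

open Topology Set Filter Real

namespace Pool.Agent.H12.AL

open Pool.Agent.H96.AL

theorem hh : T_HH := by
  intro X _ hCB q x y m hB hxq hxy
  have h := hCB q x y m hB
  have hl : 0 < dist x y := dist_pos.2 hxy
  have ha : 0 < dist x q := dist_pos.2 hxq
  have hsl : 0 < sinh (dist x y) := sinh_pos_iff.2 hl
  have hsa : 0 < sinh (dist x q) := sinh_pos_iff.2 ha
  have hmy : dist m y = dist x y - dist x m := by
    have h2 : dist x m + dist m y = dist x y := hB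
    linarith
  rw [hmy, sinh_sub, dist_comm q x, dist_comm q y, dist_comm q m] at h
  have e : cosh (dist x m) * cosh (dist x q)
      - sinh (dist x m) * sinh (dist x q) * cc (dist x y) (dist x q) (dist y q) =
      ((sinh (dist x y) * cosh (dist x m) - cosh (dist x y) * sinh (dist x m)) *
        cosh (dist x q) + sinh (dist x m) * cosh (dist y q)) / sinh (dist x y) := by
    unfold cc
    field_simp
    ring
  rw [e, div_le_iff₀ hsl]
  linarith

end Pool.Agent.H12.AL
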