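import Pool.Agent.H96.AL.Targets1

/-!
# AL, module MO: monotonicity of the comparison angle
-/

open Topology Set Filter Real

namespace Pool.Agent.H12.AL

open Pool.Agent.H96.AL

theorem cc_comm (a b c : ℝ) : cc a b c = cc b a c := by
  unfold cc
  rw [mul_comm (cosh a) (cosh b), mul_comm (sinh a) (sinh b)]

theorem mo_step {X : Type} [MetricSpace X] (hCB : CB X) (z x₁ x₂ y : X) (hB : Btw z x₁ x₂)
    (h1 : z ≠ x₁) (h2 : z ≠ y) :
    cc (dist z x₁) (dist z y) (dist x₁ y) ≤ cc (dist z x₂) (dist z y) (dist x₂ y) := by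
  have h := hCB y z x₂ x₁ hB
  have hs : 0 < dist z x₁ := dist_pos.2 h1
  have ht : 0 < dist z y := dist_pos.2 h2
  have hB2 : dist z x₁ + dist x₁ x₂ = dist z x₂ := hB
  have hs' : 0 < dist z x₂ := by
    have := dist_nonneg (x := x₁) (y := x₂)
    linarith
  have hss : 0 < sinh (dist z x₁) := sinh_pos_iff.2 hs
  have hst : 0 < sinh (dist z y) := sinh_pos_iff.2 ht
  have hss' : 0 < sinh (dist z x₂) := sinh_pos_iff.2 hs'
  have hmy : dist x₁ x₂ = dist z x₂ - dist z x₁ := by linarith
  rw [hmy, sinh_sub, dist_comm y z, dist_comm y x₂, dist_comm y x₁] at h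
  unfold cc
  rw [div_le_div_iff₀ (mul_pos hss hst) (mul_pos hss' hst)]
  have key : (cosh (dist z x₁) * cosh (dist z y) - cosh (dist x₁ y)) * sinh (dist z x₂) ≤
      (cosh (dist z x₂) * cosh (dist z y) - cosh (dist x₂ y)) * sinh (dist z x₁) := by
    linarith
  calc (cosh (dist z x₁) * cosh (dist z y) - cosh (dist x₁ y)) *
        (sinh (dist z x₂) * sinh (dist z y)) =
        (cosh (dist z x₁) * cosh (dist z y) - cosh (dist x₁ y)) * sinh (dist z x₂) *
          sinh (dist z y) := by ring
    _ ≤ (cosh (dist z x₂) * cosh (dist z y) - cosh (dist x₂ y)) * sinh (dist z x₁) *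
          sinh (dist z y) := mul_le_mul_of_nonneg_right key hst.le
    _ = _ := by ring

theorem mo : T_MO := by
  intro X _ hCB z x y x' y' hx hy hzx hzy
  have hx2 : dist z x' + dist x' x = dist z x := hx
  have hzx2 : z ≠ x := by
    rw [← dist_pos]
    have h1 := dist_pos.2 hzx
    have h2 := dist_nonneg (x := x') (y := x)
    linarith
  have h1 := mo_step hCB z x' x y' hx hzx hzy
  have h2 := mo_step hCB z y' y x hy hzy hzx2
  rw [cc_comm (dist z y'), cc_comm (dist z y), dist_comm y' x, dist_comm y x] at h2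
  exact h1.trans h2

end Pool.Agent.H12.AL
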