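import Pool.Agent.H96.AL.Targets4

/-!
# AL, module PO: pushing off an extremal subset
-/

open Topology Set Filter Real

namespace Pool.Agent.H12.AL

open Pool.Agent.H96.AL

section

variable {X : Type} [MetricSpace X] {E : Set X} {δ L' : ℝ} {β : ℝ → X}

/-- the truncated function -/
noncomputable def pof (E : Set X) (δ : ℝ) (z : X) : ℝ := min (hd E z) (δ ^ 2 / 2)

theorem pof_eq_of_le (z : X) (h : Metric.infDist z E ≤ δ) : pof E δ z =
    Metric.infDist z E ^ 2 / 2 := by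
  unfold pof hd
  apply min_eq_left
  have h0 : 0 ≤ Metric.infDist z E := Metric.infDist_nonneg
  have := pow_le_pow_left₀ h0 h 2
  linarith

theorem pof_eq_of_ge (hδ : 0 < δ) (z : X) (h : δ ≤ Metric.infDist z E) : pof E δ z =
    δ ^ 2 / 2 := by
  unfold pof hd
  apply min_eq_right
  have := pow_le_pow_left₀ hδ.le h 2
  linarith

theorem pof_le (z : X) : pof E δ z ≤ δ ^ 2 / 2 := min_le_right _ _

theorem pof_le' (z : X) : pof E δ z ≤ Metric.infDist z E ^ 2 / 2 := min_le_left _ _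

theorem le_of_sq_half_le {a b : ℝ} (hb : 0 ≤ b) (h : a ^ 2 / 2 ≤ b ^ 2 / 2) : a ≤ b := by
  have h2 : a ^ 2 ≤ b ^ 2 := by linarith
  exact le_trans (le_abs_self a) (abs_le_of_sq_le_sq h2 hb)

theorem po_mono (hβ : IsFlow L' (pof E δ) β) {s t : ℝ} (h0 : 0 ≤ s) (h1 : s ≤ t) :
    pof E δ (β s) ≤ pof E δ (β t) := by
  have h := hβ.en1 s t 0 h0 h1 le_rfl
  simp only [zero_mul] at h
  norm_num at h
  linarith

theorem po_A (hδ : 0 < δ) (hβ : IsFlow L' (pof E δ) β) {t₁ r : ℝ} (h0 : 0 ≤ t₁) (h1 : t₁ ≤ r)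
    (hv : δ ≤ Metric.infDist (β t₁) E) : β r = β t₁ ∧ δ ≤ Metric.infDist (β r) E := by
  have h2 := po_mono hβ h0 h1
  have h3 := pof_eq_of_ge hδ (β t₁) hv
  have h4 := pof_le (E := E) (δ := δ) (β r)
  have h5 := pof_le' (E := E) (δ := δ) (β r)
  refine ⟨?_, ?_⟩
  · have h6 : ∀ κ : ℝ, 0 < κ → dist (β t₁) (β r) ≤ κ / 4 * (r - t₁) := by
      intro κ hκ
      have h := hβ.en1 t₁ r κ h0 h1 hκ.le
      have h7 : κ * dist (β t₁) (β r) ≤ κ * (κ / 4 * (r - t₁)) := by
        nlinarith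
      exact le_of_mul_le_mul_left h7 hκ
    have h8 : dist (β t₁) (β r) ≤ 0 := by
      by_contra hcon
      push Not at hcon
      have hpos : 0 < r - t₁ + 1 := by linarith
      have h9 := h6 (dist (β t₁) (β r) / (r - t₁ + 1)) (div_pos hcon hpos)
      have h10 : dist (β t₁) (β r) / (r - t₁ + 1) / 4 * (r - t₁) ≤ dist (β t₁) (β r) / 4 := by
        have h11 : (r - t₁) / (r - t₁ + 1) ≤ 1 := by
          rw [div_le_one hpos]
          linarith
        calc dist (β t₁) (β r) / (r - t₁ + 1) / 4 * (r - t₁) =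
            dist (β t₁) (β r) / 4 * ((r - t₁) / (r - t₁ + 1)) := by ring
          _ ≤ dist (β t₁) (β r) / 4 * 1 := mul_le_mul_of_nonneg_left h11 (by linarith)
          _ = _ := mul_one _
      linarith
    have h12 : dist (β t₁) (β r) = 0 := le_antisymm h8 dist_nonneg
    exact (dist_eq_zero.1 h12).symm
  · apply le_of_sq_half_le Metric.infDist_nonneg
    linarith

/-- the slope of the truncated function -/
theorem po_slope {c₁ δ₁ θ : ℝ} (hc₁ : 0 < c₁) (hδ₁ : δ < δ₁) (hθ : 0 < θ)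
    (hRR : ∀ z : X, 0 < Metric.infDist z E → Metric.infDist z E < δ₁ →
      SlopeGe (hd E) z (c₁ * Metric.infDist z E)) (z : X) (h1 : θ / 2 < Metric.infDist z E)
    (h2 : Metric.infDist z E < δ) : SlopeGe (pof E δ) z (c₁ * (θ / 2)) := by
  intro ε hε r hr
  obtain ⟨w, hw, hwr, hws⟩ := hRR z (by linarith) (by linarith) ε hε
    (min r (δ - Metric.infDist z E)) (lt_min hr (by linarith))
  refine ⟨w, hw, hwr.trans_le (min_le_left _ _), ?_⟩
  have h3 : Metric.infDist w E ≤ Metric.infDist z E + dist w z :=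
    Metric.infDist_le_infDist_add_dist
  have h4 : dist z w < δ - Metric.infDist z E := hwr.trans_le (min_le_right _ _)
  rw [dist_comm w z] at h3
  rw [pof_eq_of_le w (by linarith), pof_eq_of_le z h2.le]
  unfold hd at hws
  refine le_trans (mul_le_mul_of_nonneg_right ?_ dist_nonneg) hws
  have := mul_le_mul_of_nonneg_left h1.le hc₁.le
  linarith

/-- the estimate while the distance does not double -/
theorem po_B {c₁ δ₁ : ℝ} (hc₁ : 0 < c₁) (hδ₁ : δ < δ₁)
    (hRR : ∀ z : X, 0 < Metric.infDist z E → Metric.infDist z E < δ₁ →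
      SlopeGe (hd E) z (c₁ * Metric.infDist z E)) (hβ : IsFlow L' (pof E δ) β) {s t : ℝ}
    (h0 : 0 ≤ s) (h1 : s ≤ t) (hθ : 0 < Metric.infDist (β s) E)
    (hr : ∀ r ∈ Icc s t, Metric.infDist (β r) E < min (2 * Metric.infDist (β s) E) δ) :
    dist (β s) (β t) ≤ 3 * Metric.infDist (β s) E / c₁ ∧ t - s ≤ 6 / c₁ ^ 2 := by
  obtain ⟨θ, hθe⟩ : ∃ θ : ℝ, θ = Metric.infDist (β s) E := ⟨_, rfl⟩
  rw [← hθe] at hθ hr ⊢
  have hs := hr s ⟨le_rfl, h1⟩
  have ht := hr t ⟨h1, le_rfl⟩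
  have hsδ : Metric.infDist (β s) E < δ := hs.trans_le (min_le_right _ _)
  have htδ : Metric.infDist (β t) E < δ := ht.trans_le (min_le_right _ _)
  have htθ : Metric.infDist (β t) E < 2 * θ := ht.trans_le (min_le_left _ _)
  have hO : IsOpen {z : X | θ / 2 < Metric.infDist z E ∧ Metric.infDist z E < δ} :=
    (isOpen_lt continuous_const (Metric.continuous_infDist_pt E)).inter
      (isOpen_lt (Metric.continuous_infDist_pt E) continuous_const)
  have hen := hβ.en2 {z : X | θ / 2 < Metric.infDist z E ∧ Metric.infDist z E < δ}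
    (c₁ * (θ / 2)) hO (by positivity)
    (fun z hz => po_slope hc₁ hδ₁ hθ hRR z hz.1 hz.2) s t h0 h1 (by
      intro r hr'
      have h2 := hr r hr'
      have h3 : Metric.infDist (β r) E < δ := h2.trans_le (min_le_right _ _)
      refine ⟨?_, h3⟩
      have h4 := po_mono hβ h0 hr'.1
      rw [pof_eq_of_le (β s) hsδ.le, pof_eq_of_le (β r) h3.le] at h4
      have h5 := le_of_sq_half_le Metric.infDist_nonneg h4
      rw [← hθe] at h5
      linarith)
  rw [pof_eq_of_le (β s) hsδ.le, pof_eq_of_le (β t) htδ.le, ← hθe] at hen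
  have h6 : Metric.infDist (β t) E ^ 2 / 2 - θ ^ 2 / 2 ≤ 3 * θ ^ 2 / 2 := by
    have h7 : Metric.infDist (β t) E ^ 2 ≤ (2 * θ) ^ 2 :=
      pow_le_pow_left₀ Metric.infDist_nonneg htθ.le 2
    nlinarith
  obtain ⟨hen1, hen2⟩ := hen
  constructor
  · rw [le_div_iff₀ hc₁]
    have h8 : (θ / 2) * (dist (β s) (β t) * c₁) ≤ (θ / 2) * (3 * θ) := by nlinarith
    exact le_of_mul_le_mul_left h8 (by linarith)
  · rw [le_div_iff₀ (by positivity)]
    have h8 : (θ ^ 2 / 4) * ((t - s) * c₁ ^ 2) ≤ (θ ^ 2 / 4) * 6 := by nlinarith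
    exact le_of_mul_le_mul_left h8 (by positivity)

theorem flow_nonneg {g : X → ℝ} (hβ : IsFlow L' g β) : 0 ≤ L' := by
  have h := hβ.lip 0 1 le_rfl zero_le_one
  have h2 : (0 : ℝ) ≤ dist (β 0) (β 1) := dist_nonneg
  norm_num at h
  linarith

theorem flow_cont {g : X → ℝ} (hβ : IsFlow L' g β) : ContinuousOn β (Ici 0) := by
  refine LipschitzOnWith.continuousOn (K := Real.toNNReal L')
    (LipschitzOnWith.of_dist_le_mul ?_)
  intro s hs t ht
  rw [Real.dist_eq, Real.coe_toNNReal L' (flow_nonneg hβ)]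
  exact hβ.lip s t hs ht

/-- the time at which the distance has doubled -/
theorem po_C {c₁ δ₁ : ℝ} (hc₁ : 0 < c₁) (hδ₁ : δ < δ₁)
    (hRR : ∀ z : X, 0 < Metric.infDist z E → Metric.infDist z E < δ₁ →
      SlopeGe (hd E) z (c₁ * Metric.infDist z E)) (hβ : IsFlow L' (pof E δ) β) {s : ℝ}
    (h0 : 0 ≤ s) (hθ : 0 < Metric.infDist (β s) E) (hθδ : Metric.infDist (β s) E < δ) :
    ∃ t₁ : ℝ, s ≤ t₁ ∧ t₁ - s ≤ 6 / c₁ ^ 2 ∧
      min (2 * Metric.infDist (β s) E) δ ≤ Metric.infDist (β t₁) E ∧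
      ∀ t, s ≤ t → t ≤ t₁ → dist (β s) (β t) ≤ 3 * Metric.infDist (β s) E / c₁ := by
  obtain ⟨m₁, hm₁⟩ : ∃ m₁ : ℝ, m₁ = min (2 * Metric.infDist (β s) E) δ := ⟨_, rfl⟩
  have hB : 0 ≤ 6 / c₁ ^ 2 := by positivity
  have hlt : Metric.infDist (β s) E < m₁ := by
    rw [hm₁]
    exact lt_min (by linarith) hθδ
  obtain ⟨S, hS⟩ : ∃ S : Set ℝ, S = {t | s ≤ t ∧ m₁ ≤ Metric.infDist (β t) E} := ⟨_, rfl⟩
  have hcont : ContinuousOn (fun t => Metric.infDist (β t) E) (Ici s) :=
    ((Metric.continuous_infDist_pt E).comp_continuousOn (flow_cont hβ)).mono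
      (Ici_subset_Ici.2 h0)
  have hScl : IsClosed S := by
    have h : S = Ici s ∩ (fun t => Metric.infDist (β t) E) ⁻¹' Ici m₁ := by
      rw [hS]
      rfl
    rw [h]
    exact hcont.preimage_isClosed_of_isClosed isClosed_Ici isClosed_Ici
  have hSne : S.Nonempty := by
    by_contra hcon
    have h1 : ∀ t, s ≤ t → Metric.infDist (β t) E < m₁ := by
      intro t ht
      by_contra h
      exact hcon ⟨t, by rw [hS]; exact ⟨ht, not_lt.1 h⟩⟩
    have h2 := (po_B hc₁ hδ₁ hRR hβ h0 (t := s + 6 / c₁ ^ 2 + 1) (by linarith) hθ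
      (fun r hr => by rw [← hm₁]; exact h1 r hr.1)).2
    linarith
  have hSbd : BddBelow S := ⟨s, fun t ht => by
    rw [hS] at ht
    exact ht.1⟩
  have hmem := hScl.csInf_mem hSne hSbd
  obtain ⟨t₁, ht₁⟩ : ∃ t₁ : ℝ, t₁ = sInf S := ⟨_, rfl⟩
  rw [← ht₁, hS] at hmem
  have hbelow : ∀ r, s ≤ r → r < t₁ → Metric.infDist (β r) E < m₁ := by
    intro r hr hrt
    by_contra h
    have : r ∈ S := by
      rw [hS]
      exact ⟨hr, not_lt.1 h⟩
    exact absurd (csInf_le hSbd this) (not_le.2 (ht₁ ▸ hrt))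
  have hst : s < t₁ := by
    rcases lt_or_eq_of_le hmem.1 with h | h
    · exact h
    · exfalso
      have := hmem.2
      rw [← h] at this
      linarith
  have hBt : ∀ t, s ≤ t → t < t₁ → dist (β s) (β t) ≤ 3 * Metric.infDist (β s) E / c₁ ∧
      t - s ≤ 6 / c₁ ^ 2 := by
    intro t ht htt
    exact po_B hc₁ hδ₁ hRR hβ h0 ht hθ (fun r hr => by
      rw [← hm₁]
      exact hbelow r hr.1 (hr.2.trans_lt htt))
  refine ⟨t₁, hst.le, ?_, by rw [← hm₁]; exact hmem.2, ?_⟩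
  · by_contra hcon
    push Not at hcon
    have := (hBt ((t₁ + (s + 6 / c₁ ^ 2)) / 2) (by linarith) (by linarith)).2
    linarith
  · intro t ht htt
    rcases lt_or_eq_of_le htt with h | h
    · exact (hBt t ht h).1
    · rw [h]
      by_contra hcon
      push Not at hcon
      have hL := flow_nonneg hβ
      obtain ⟨γ, hγ⟩ : ∃ γ : ℝ, γ = dist (β s) (β t₁) - 3 * Metric.infDist (β s) E / c₁ :=
        ⟨_, rfl⟩
      have hγ0 : 0 < γ := by rw [hγ]; linarith
      obtain ⟨e, he⟩ : ∃ e : ℝ, e = γ / (2 * (L' + 1)) := ⟨_, rfl⟩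
      have he0 : 0 < e := by rw [he]; positivity
      have h1 := (hBt (max s (t₁ - e)) (le_max_left _ _) (max_lt hst (by linarith))).1
      have h2 : t₁ - max s (t₁ - e) ≤ e := by
        have := le_max_right s (t₁ - e)
        linarith
      have h3 : 0 ≤ t₁ - max s (t₁ - e) := by
        have := max_lt hst (show t₁ - e < t₁ by linarith)
        linarith
      have h4 := hβ.lip (max s (t₁ - e)) t₁ (h0.trans (le_max_left _ _)) (h0.trans hst.le)
      rw [abs_sub_comm, abs_of_nonneg h3] at h4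
      have h5 : L' * (t₁ - max s (t₁ - e)) ≤ L' * e := mul_le_mul_of_nonneg_left h2 hL
      have h6 : L' * e ≤ γ / 2 := by
        rw [he]
        have h7 : L' / (L' + 1) ≤ 1 := by
          rw [div_le_one (by linarith)]
          linarith
        calc L' * (γ / (2 * (L' + 1))) = γ / 2 * (L' / (L' + 1)) := by
              field_simp
          _ ≤ γ / 2 * 1 := mul_le_mul_of_nonneg_left h7 (by linarith)
          _ = γ / 2 := mul_one _
      have h7 := dist_triangle (β s) (β (max s (t₁ - e))) (β t₁)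
      linarith

/-- the induction -/
theorem po_D {c₁ δ₁ : ℝ} (hc₁ : 0 < c₁) (hδ : 0 < δ) (hδ₁ : δ < δ₁)
    (hRR : ∀ z : X, 0 < Metric.infDist z E → Metric.infDist z E < δ₁ →
      SlopeGe (hd E) z (c₁ * Metric.infDist z E)) (hβ : IsFlow L' (pof E δ) β) (n : ℕ) :
    ∀ s : ℝ, 0 ≤ s → 0 < Metric.infDist (β s) E → δ ≤ 2 ^ n * Metric.infDist (β s) E →
    ∀ t : ℝ, s ≤ t → dist (β s) (β t) ≤ 3 / c₁ * max 0 (2 * δ - Metric.infDist (β s) E) ∧
      (s + 6 * n / c₁ ^ 2 ≤ t → δ ≤ Metric.infDist (β t) E) := by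
  have hcase : ∀ s : ℝ, 0 ≤ s → δ ≤ Metric.infDist (β s) E → ∀ t : ℝ, s ≤ t →
      dist (β s) (β t) ≤ 3 / c₁ * max 0 (2 * δ - Metric.infDist (β s) E) ∧
      δ ≤ Metric.infDist (β t) E := by
    intro s hs hv t ht
    obtain ⟨h1, h2⟩ := po_A hδ hβ hs ht hv
    refine ⟨?_, h2⟩
    rw [h1, dist_self]
    exact mul_nonneg (by positivity) (le_max_left _ _)
  induction n with
  | zero =>
    intro s hs h0 hv t ht
    rw [pow_zero, one_mul] at hv
    obtain ⟨h1, h2⟩ := hcase s hs hv t ht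
    exact ⟨h1, fun _ => h2⟩
  | succ n ih =>
    intro s hs h0 hv t ht
    rcases le_or_gt δ (Metric.infDist (β s) E) with hle | hlt
    · obtain ⟨h1, h2⟩ := hcase s hs hle t ht
      exact ⟨h1, fun _ => h2⟩
    obtain ⟨t₁, hst, hts, hm, hd⟩ := po_C hc₁ hδ₁ hRR hβ hs h0 hlt
    have hmax : max 0 (2 * δ - Metric.infDist (β s) E) = 2 * δ - Metric.infDist (β s) E :=
      max_eq_right (by linarith)
    rw [hmax]
    have hb : 3 * Metric.infDist (β s) E / c₁ ≤ 3 / c₁ * (2 * δ - Metric.infDist (β s) E) := by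
      have : 3 * Metric.infDist (β s) E / c₁ = 3 / c₁ * Metric.infDist (β s) E := by ring
      rw [this]
      exact mul_le_mul_of_nonneg_left (by linarith) (by positivity)
    have hn1 : 6 * ((n + 1 : ℕ) : ℝ) / c₁ ^ 2 = 6 / c₁ ^ 2 + 6 * (n : ℝ) / c₁ ^ 2 := by
      push_cast
      ring
    have hn0 : 0 ≤ 6 * (n : ℝ) / c₁ ^ 2 := by positivity
    have hafter : ∀ t : ℝ, t₁ ≤ t →
        dist (β s) (β t) ≤ 3 / c₁ * (2 * δ - Metric.infDist (β s) E) ∧
        (s + 6 * ((n + 1 : ℕ) : ℝ) / c₁ ^ 2 ≤ t → δ ≤ Metric.infDist (β t) E) := by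
      intro t htt
      rcases le_or_gt δ (Metric.infDist (β t₁) E) with hle1 | hlt1
      · obtain ⟨h1, h2⟩ := po_A hδ hβ (hs.trans hst) htt hle1
        refine ⟨?_, fun _ => h2⟩
        rw [h1]
        exact (hd t₁ hst le_rfl).trans hb
      · have hm2 : 2 * Metric.infDist (β s) E ≤ Metric.infDist (β t₁) E := by
          rcases min_le_iff.1 hm with h | h
          · exact h
          · exact absurd h (not_le.2 hlt1)
        have hv2 : δ ≤ 2 ^ n * Metric.infDist (β t₁) E := by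
          calc δ ≤ 2 ^ (n + 1) * Metric.infDist (β s) E := hv
            _ = 2 ^ n * (2 * Metric.infDist (β s) E) := by ring
            _ ≤ _ := mul_le_mul_of_nonneg_left hm2 (by positivity)
        obtain ⟨h1, h2⟩ := ih t₁ (hs.trans hst) (by linarith) hv2 t htt
        rw [max_eq_right (by linarith)] at h1
        refine ⟨?_, fun h => h2 ?_⟩
        · have h3 := hd t₁ hst le_rfl
          have h4 := dist_triangle (β s) (β t₁) (β t)
          have h5 : 3 / c₁ * (2 * δ - Metric.infDist (β t₁) E) ≤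
              3 / c₁ * (2 * δ - 2 * Metric.infDist (β s) E) :=
            mul_le_mul_of_nonneg_left (by linarith) (by positivity)
          have h6 : 3 * Metric.infDist (β s) E / c₁ + 3 / c₁ * (2 * δ - 2 * Metric.infDist (β s) E)
              = 3 / c₁ * (2 * δ - Metric.infDist (β s) E) := by ring
          linarith
        · rw [hn1] at h
          linarith
    rcases le_or_gt t₁ t with h | h
    · exact hafter t h
    · refine ⟨(hd t ht h.le).trans hb, fun h2 => ?_⟩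
      rw [hn1] at h2
      exfalso
      linarith

end

theorem po (hRR : T_RR) : T_PO := by
  intro X _ D hSp hdim
  obtain ⟨c₁, δ₁, hc₁, hc₁1, hδ₁, hRR'⟩ := hRR X D hSp hdim
  refine ⟨9 / c₁ ^ 2, δ₁, by positivity, hδ₁, ?_⟩
  intro E hE hEne δ L' hδ hδδ β hβ' h0 t ht
  have hβ : IsFlow L' (pof E δ) β := hβ'
  obtain ⟨θ, hθ⟩ : ∃ θ : ℝ, θ = Metric.infDist (β 0) E := ⟨_, rfl⟩
  obtain ⟨M, hM⟩ : ∃ M : ℝ, M = max 0 (log (δ / Metric.infDist (β 0) E)) := ⟨_, rfl⟩
  have hM0 : 0 ≤ M := by rw [hM]; exact le_max_left _ _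
  have hMl : log (δ / θ) ≤ M := by rw [hM, hθ]; exact le_max_right _ _
  rw [← hM]
  rw [← hθ] at h0
  have hlog2 : 0.6931471803 < log 2 := Real.log_two_gt_d9
  have hl2 : 0 < log 2 := by linarith
  obtain ⟨n, hn⟩ : ∃ n : ℕ, n = ⌈M / log 2⌉₊ := ⟨_, rfl⟩
  have hn1 : M / log 2 ≤ n := by rw [hn]; exact Nat.le_ceil _
  have hn2 : (n : ℝ) < M / log 2 + 1 := by
    rw [hn]
    exact Nat.ceil_lt_add_one (by positivity)
  have hpow : δ ≤ 2 ^ n * θ := by
    rw [← div_le_iff₀ h0]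
    have h1 : log (δ / θ) ≤ n * log 2 := by
      rw [div_le_iff₀ hl2] at hn1
      exact hMl.trans hn1
    rw [← Real.log_pow] at h1
    exact (Real.log_le_log_iff (by positivity) (by positivity)).1 h1
  obtain ⟨h1, h2⟩ := po_D hc₁ hδ hδδ (hRR' E hE hEne) hβ n 0 le_rfl (hθ ▸ h0) (hθ ▸ hpow) t ht
  constructor
  · refine h1.trans ?_
    have h3 : max 0 (2 * δ - Metric.infDist (β 0) E) ≤ 2 * δ :=
      max_le (by linarith) (by rw [← hθ]; linarith)
    have h4 : 3 / c₁ * max 0 (2 * δ - Metric.infDist (β 0) E) ≤ 3 / c₁ * (2 * δ) :=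
      mul_le_mul_of_nonneg_left h3 (by positivity)
    refine h4.trans ?_
    have h5 : 3 / c₁ * 2 ≤ 9 / c₁ ^ 2 := by
      rw [le_div_iff₀ (by positivity)]
      have : 3 / c₁ * 2 * c₁ ^ 2 = 6 * c₁ := by
        field_simp
        ring
      rw [this]
      linarith
    calc 3 / c₁ * (2 * δ) = 3 / c₁ * 2 * δ := by ring
      _ ≤ _ := mul_le_mul_of_nonneg_right h5 hδ.le
  · intro h3
    apply h2
    refine le_trans ?_ h3
    rw [zero_add]
    have h4 : 6 * (n : ℝ) ≤ 9 * (1 + M) := by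
      have h5 : M / log 2 ≤ 3 / 2 * M := by
        rw [div_le_iff₀ hl2]
        nlinarith
      linarith
    calc 6 * (n : ℝ) / c₁ ^ 2 ≤ 9 * (1 + M) / c₁ ^ 2 := by
          exact div_le_div_of_nonneg_right h4 (by positivity)
      _ = 9 / c₁ ^ 2 * (1 + M) := by ring

end Pool.Agent.H12.AL
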